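import Pool.Agent.Results.MP_3cbb73_an.GreedyOrder

/-!
# Pure greedy algorithm over Riesz bases: slower rates below the threshold of `GreedyOrder`

The potential `Psi` of `GreedyOrder` is used for small lower constants of the Riesz basis: there the
mass `A` may grow, but only like a power of `1 / δ`, `δ = E / A`.
-/

set_option autoImplicit false

namespace Pool.Agent.H331G.RB

open Real Pool.Agent.Results.MP_3cbb73_an.GreedyOrder

variable {ι : Type*} [DecidableEq ι] {θ : ℝ} {c : ℕ → ι → ℝ} {φ : ℕ → ι} {a E : ℕ → ℝ}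

/-- one step of the potential, without any condition on the mass -/
theorem psi_step (h : Dyn θ c φ a E) {m : ℕ} (hE : 0 < E m) (hE' : 0 < E (m + 1)) :
    Psi c φ E (m + 1) ≤ Psi c φ E m + ((kap + θ / (2 * exp 1) - 1) * A c φ (m + 1) + 1) *
      (1 - dl c φ E (m + 1) / dl c φ E m) := by
  have hd := h.dl_pos hE
  have hd' := h.dl_pos hE'
  have hdd := h.dl_anti hE hE'
  have hj := h.jump hE
  have hk := h.key_id hE hE'
  have hw := h.ww_nonneg hE
  have hAp := h.A_pos hE'
  have hU := U_le (c := c) (φ := φ) (m + 1)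
  have hQ := h.sq (m + 1)
  have hexp := exp_pos 1
  set d := dl c φ E m with hd1
  set d' := dl c φ E (m + 1) with hd2
  have hED : E (m + 1) = d' * A c φ (m + 1) := by
    rw [hd2]; unfold dl; field_simp
  have hsum : ∑ i ∈ T φ (m + 1), d' * wg (|c (m + 1) i| / d') ≤
      ∑ i ∈ T φ (m + 1), (d * wg (|c (m + 1) i| / d) - |c (m + 1) i| * log (d / d')
        + |c (m + 1) i| ^ 2 / (2 * exp 1) * (1 / d' - 1 / d)) :=
    Finset.sum_le_sum (fun i _ => persp (abs_nonneg _) hd' hdd)
  rw [Finset.sum_add_distrib, Finset.sum_sub_distrib, ← Finset.sum_mul, ← Finset.sum_mul,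
    ← Finset.sum_div] at hsum
  simp only [sq_abs] at hsum
  have hAt : ∑ i ∈ T φ (m + 1), |c (m + 1) i| = A c φ (m + 1) - U c φ (m + 1) := by
    unfold A; ring
  rw [hAt] at hsum
  have hlog : 1 - d' / d ≤ log (d / d') := by
    have := Real.one_sub_inv_le_log_of_pos (x := d / d') (by positivity)
    rwa [inv_div] at this
  have hρ : 0 ≤ 1 - d' / d := by
    have : d' / d ≤ 1 := by rw [div_le_one hd]; exact hdd
    linarith
  have hA1 : 0 ≤ A c φ (m + 1) - U c φ (m + 1) := by
    rw [← hAt]; exact Finset.sum_nonneg (fun _ _ => abs_nonneg _)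
  have s1 : (A c φ (m + 1) - 1) * (1 - d' / d) ≤ (A c φ (m + 1) - U c φ (m + 1)) * log (d / d') := by
    have s2 : (A c φ (m + 1) - U c φ (m + 1)) * (1 - d' / d) ≤
        (A c φ (m + 1) - U c φ (m + 1)) * log (d / d') := mul_le_mul_of_nonneg_left hlog hA1
    have s3 : (A c φ (m + 1) - 1) * (1 - d' / d) ≤ (A c φ (m + 1) - U c φ (m + 1)) * (1 - d' / d) :=
      mul_le_mul_of_nonneg_right (by linarith) hρ
    linarith
  have hinv : 0 ≤ 1 / d' - 1 / d := by
    have : 1 / d ≤ 1 / d' := one_div_le_one_div_of_le hd' hdd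
    linarith
  have s4 : (∑ i ∈ T φ (m + 1), c (m + 1) i ^ 2) / (2 * exp 1) * (1 / d' - 1 / d) ≤
      θ / (2 * exp 1) * A c φ (m + 1) * (1 - d' / d) := by
    have s5 : (∑ i ∈ T φ (m + 1), c (m + 1) i ^ 2) / (2 * exp 1) * (1 / d' - 1 / d) ≤
        (θ * E (m + 1)) / (2 * exp 1) * (1 / d' - 1 / d) := by
      apply mul_le_mul_of_nonneg_right _ hinv
      apply div_le_div_of_nonneg_right hQ (by positivity)
    have s6 : (θ * E (m + 1)) / (2 * exp 1) * (1 / d' - 1 / d) =
        θ / (2 * exp 1) * A c φ (m + 1) * (1 - d' / d) := by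
      rw [hED]; field_simp
    linarith
  have s7 : kap * ww c φ a E m = kap * (A c φ (m + 1) * (1 - d' / d)) := by
    rw [← hk]
  have e : Psi c φ E (m + 1) = ∑ i ∈ T φ (m + 1), d' * wg (|c (m + 1) i| / d')
      + 2 * kap * U c φ (m + 1) := rfl
  have e2 : ((kap + θ / (2 * exp 1) - 1) * A c φ (m + 1) + 1) * (1 - d' / d) =
      kap * (A c φ (m + 1) * (1 - d' / d)) + θ / (2 * exp 1) * A c φ (m + 1) * (1 - d' / d) -
        (A c φ (m + 1) - 1) * (1 - d' / d) := by ring
  rw [e, e2]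
  linarith

/-- the mass grows at most like a power of `1 / δ` -/
theorem mass (h : Dyn θ c φ a E) {μ : ℝ} (hμ0 : 0 < μ) (hμ1 : μ < 1)
    (hc : 0 < 1 - θ / (2 * exp 1))
    (hν : kap + θ / (2 * exp 1) - 1 ≤ μ * (1 - θ / (2 * exp 1))) (N : ℕ)
    (hN : ∀ m ≤ N, 0 < E m) :
    ∀ m ≤ N, (Psi c φ E m + 1 / μ) * (dl c φ E m) ^ μ ≤ (2 * kap + 1 / μ) * (E 0) ^ μ := by
  intro m
  induction m with
  | zero =>
    intro _
    have h1 : Psi c φ E 0 = 2 * kap := by
      unfold Psi
      rw [T_zero, U_zero]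
      simp
    have h2 : dl c φ E 0 = E 0 := by
      unfold dl
      rw [A_zero, div_one]
    rw [h1, h2]
  | succ m ih =>
    intro hm
    have ih' := ih (by omega)
    have hE := hN m (by omega)
    have hE' := hN (m + 1) hm
    have hd := h.dl_pos hE
    have hd' := h.dl_pos hE'
    have hdd := h.dl_anti hE hE'
    have hstep := psi_step h hE hE'
    have hA' := h.A_pos hE'
    have hlow := h.Psi_lower hE'
    refine le_trans ?_ ih'
    set d := dl c φ E m
    set d' := dl c φ E (m + 1)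
    set ρ := 1 - d' / d with hρ
    have hr1 : d' / d ≤ 1 := by rw [div_le_one hd]; exact hdd
    have hr0 : 0 < d' / d := div_pos hd' hd
    have hρ0 : 0 ≤ ρ := by rw [hρ]; linarith
    have hΨ' : 0 ≤ Psi c φ E (m + 1) := le_trans (by positivity) hlow
    have h1 : (kap + θ / (2 * exp 1) - 1) * A c φ (m + 1) ≤ μ * Psi c φ E (m + 1) := by
      calc (kap + θ / (2 * exp 1) - 1) * A c φ (m + 1)
          ≤ μ * (1 - θ / (2 * exp 1)) * A c φ (m + 1) := by gcongr
        _ = μ * (A c φ (m + 1) * (1 - θ / (2 * exp 1))) := by ring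
        _ ≤ μ * Psi c φ E (m + 1) := by gcongr
    have h2 : (Psi c φ E (m + 1) + 1 / μ) * (1 - μ * ρ) ≤ Psi c φ E m + 1 / μ := by
      have h3 : (Psi c φ E (m + 1) + 1 / μ) * (1 - μ * ρ) =
          Psi c φ E (m + 1) + 1 / μ - (μ * Psi c φ E (m + 1) + 1) * ρ := by
        field_simp
      have h4 : ((kap + θ / (2 * exp 1) - 1) * A c φ (m + 1) + 1) * ρ ≤
          (μ * Psi c φ E (m + 1) + 1) * ρ := by gcongr
      rw [h3]
      linarith
    have h5 : (d' / d) ^ μ ≤ 1 - μ * ρ := by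
      have h6 := rpow_one_add_le_one_add_mul_self (s := -ρ) (p := μ)
        (by rw [hρ]; linarith) hμ0.le hμ1.le
      have h7 : 1 + -ρ = d' / d := by rw [hρ]; ring
      rw [h7] at h6
      linarith
    have h8 : d' ^ μ = (d' / d) ^ μ * d ^ μ := by
      rw [← Real.mul_rpow hr0.le hd.le]
      congr 1
      field_simp
    rw [h8]
    calc (Psi c φ E (m + 1) + 1 / μ) * ((d' / d) ^ μ * d ^ μ)
        ≤ (Psi c φ E (m + 1) + 1 / μ) * ((1 - μ * ρ) * d ^ μ) := by gcongr
      _ = (Psi c φ E (m + 1) + 1 / μ) * (1 - μ * ρ) * d ^ μ := by ring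
      _ ≤ (Psi c φ E m + 1 / μ) * d ^ μ := by gcongr

theorem E_zero_le (h : Dyn θ c φ a E) (hE0 : ∀ m, 0 ≤ E m) : E 0 ≤ 1 := by
  have h1 := h.gr 0
  rw [A_zero, one_mul] at h1
  have h2 := h.en 0
  have h3 := hE0 1
  have h4 := hE0 0
  have h5 : a 0 ^ 2 ≤ E 0 := by
    simp only [zero_add] at h2
    linarith
  have h6 : E 0 ^ 2 ≤ a 0 ^ 2 := by
    rw [← sq_abs (a 0)]
    exact pow_le_pow_left₀ h4 h1 2
  nlinarith

/-- the scalar recursion -/
theorem scalar {x : ℕ → ℝ} {K s : ℝ} (hK : 0 < K) (hs : 0 < s) (N : ℕ) (hx : ∀ m ≤ N, 0 < x m)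
    (hrec : ∀ m < N, x (m + 1) ≤ x m * (1 - x m ^ s / K)) :
    ∀ m ≤ N, s / K * m * x m ^ s ≤ 1 := by
  intro m
  induction m with
  | zero =>
    intro _
    simp
  | succ m ih =>
    intro hm
    have ih' := ih (by omega)
    have h0 := hx m (by omega)
    have h1 := hx (m + 1) hm
    have h2 := hrec m (by omega)
    set t := x m ^ s / K with ht
    have hxs : 0 < x m ^ s := by positivity
    have ht0 : 0 < t := by positivity
    have ht1 : 0 < 1 - t := by
      by_contra hcon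
      push Not at hcon
      have : x m * (1 - t) ≤ 0 := mul_nonpos_of_nonneg_of_nonpos h0.le hcon
      linarith
    have h3 : x (m + 1) ^ s ≤ x m ^ s * (1 - t) ^ s := by
      rw [← Real.mul_rpow h0.le ht1.le]
      exact Real.rpow_le_rpow h1.le h2 hs.le
    have h4 : (1 + s * t) * (1 - t) ^ s ≤ 1 := by
      have h5 : (1 - t) ^ s ≤ exp (-(s * t)) := by
        calc (1 - t) ^ s ≤ (exp (-t)) ^ s := by
              apply Real.rpow_le_rpow ht1.le _ hs.le
              have := Real.add_one_le_exp (-t)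
              linarith
          _ = exp (-(s * t)) := by
              rw [← Real.exp_mul]
              congr 1
              ring
      have h6 : 1 + s * t ≤ exp (s * t) := by
        have := Real.add_one_le_exp (s * t)
        linarith
      calc (1 + s * t) * (1 - t) ^ s ≤ exp (s * t) * exp (-(s * t)) := by gcongr
        _ = 1 := by rw [← Real.exp_add]; simp
    have h7 : s / K * ((m + 1 : ℕ) : ℝ) * x m ^ s = s / K * m * x m ^ s + s * t := by
      rw [ht]
      push_cast
      field_simp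
    have hP : 0 ≤ (1 - t) ^ s := by positivity
    calc s / K * ((m + 1 : ℕ) : ℝ) * x (m + 1) ^ s
        ≤ s / K * ((m + 1 : ℕ) : ℝ) * (x m ^ s * (1 - t) ^ s) := by gcongr
      _ = (s / K * ((m + 1 : ℕ) : ℝ) * x m ^ s) * (1 - t) ^ s := by ring
      _ = (s / K * m * x m ^ s + s * t) * (1 - t) ^ s := by rw [h7]
      _ ≤ (1 + s * t) * (1 - t) ^ s := by gcongr
      _ ≤ 1 := h4

/-- decay of the energy -/
theorem energy (h : Dyn θ c φ a E) {μ : ℝ} (hμ0 : 0 < μ) (hμ1 : μ < 1)
    (hc : 0 < 1 - θ / (2 * exp 1))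
    (hν : kap + θ / (2 * exp 1) - 1 ≤ μ * (1 - θ / (2 * exp 1))) (hE0 : ∀ m, 0 ≤ E m)
    (m : ℕ) (hm : 1 ≤ m) :
    E m ≤ (2 * kap + 1 / μ) / (1 - θ / (2 * exp 1)) *
      (((2 * kap + 1 / μ) / (1 - θ / (2 * exp 1)) / ((1 + μ) / (1 - μ))) ^ ((1 - μ) / (1 + μ)) *
        (m : ℝ) ^ (-((1 - μ) / (1 + μ)))) := by
  set K : ℝ := (2 * kap + 1 / μ) / (1 - θ / (2 * exp 1)) with hKdef
  have hkap := kap_pos
  have hK : 0 < K := by positivity
  have h1μ : 0 < 1 - μ := by linarith
  set s : ℝ := (1 + μ) / (1 - μ) with hs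
  have hs0 : 0 < s := by positivity
  have hm0 : (0 : ℝ) < m := by exact_mod_cast hm
  rcases (hE0 m).eq_or_lt with h0 | h0
  · rw [← h0]
    positivity
  have hpos : ∀ k ≤ m, 0 < E k := by
    intro k hk
    have hanti : Antitone E := antitone_nat_of_succ_le (fun n => by
      rw [h.en]; linarith [sq_nonneg (a n)])
    exact lt_of_lt_of_le h0 (hanti hk)
  have hmass := mass h hμ0 hμ1 hc hν m hpos
  have hE1 := E_zero_le h hE0
  have hrec : ∀ k < m, E (k + 1) / K ≤ E k / K * (1 - (E k / K) ^ s / K) := by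
    intro k hk
    have hEk := hpos k hk.le
    have hd := h.dl_pos hEk
    have hda := h.dl_le hEk
    have hA := h.A_pos hEk
    have hlow := h.Psi_lower hEk
    have h1 := hmass k hk.le
    set d := dl c φ E k with hdk
    have hED : E k = d * A c φ k := by
      rw [hdk]; unfold dl; field_simp
    have h2 : A c φ k * (1 - θ / (2 * exp 1)) * d ^ μ ≤ 2 * kap + 1 / μ := by
      have h3 : (E 0) ^ μ ≤ 1 := Real.rpow_le_one (hE0 0) hE1 hμ0.le
      have h4 : (0 : ℝ) ≤ 1 / μ := by positivity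
      calc A c φ k * (1 - θ / (2 * exp 1)) * d ^ μ ≤ (Psi c φ E k + 1 / μ) * d ^ μ := by
            gcongr
            linarith
        _ ≤ (2 * kap + 1 / μ) * (E 0) ^ μ := h1
        _ ≤ (2 * kap + 1 / μ) * 1 := by gcongr
        _ = _ := mul_one _
    have h5 : E k / K ≤ d ^ (1 - μ) := by
      have h6 : A c φ k * d ^ μ ≤ K := by
        rw [hKdef, le_div_iff₀ hc]
        linarith [mul_comm (A c φ k * d ^ μ) (1 - θ / (2 * exp 1))]
      have h7 : d ^ μ * d ^ (1 - μ) = d := by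
        rw [← Real.rpow_add hd]
        simp
      rw [div_le_iff₀ hK, hED]
      calc d * A c φ k = (d ^ μ * d ^ (1 - μ)) * A c φ k := by rw [h7]
        _ = d ^ (1 - μ) * (A c φ k * d ^ μ) := by ring
        _ ≤ d ^ (1 - μ) * K := by gcongr
    have hx0 : 0 < E k / K := by positivity
    have h8 : (E k / K) ^ (s + 1) ≤ d ^ 2 := by
      have h9 : (1 - μ) * (s + 1) = 2 := by
        rw [hs]
        field_simp
        ring
      calc (E k / K) ^ (s + 1) ≤ (d ^ (1 - μ)) ^ (s + 1) := by gcongr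
        _ = d ^ (2 : ℝ) := by rw [← Real.rpow_mul hd.le, h9]
        _ = d ^ 2 := Real.rpow_two d
    have h10 : d ^ 2 ≤ a k ^ 2 := by
      rw [← sq_abs (a k)]
      exact pow_le_pow_left₀ hd.le hda 2
    have h11 : E (k + 1) ≤ E k - (E k / K) ^ (s + 1) := by
      rw [h.en]
      linarith
    have h12 : (E k / K) ^ (s + 1) = (E k / K) ^ s * (E k / K) := by
      rw [Real.rpow_add hx0, Real.rpow_one]
    rw [div_le_iff₀ hK]
    calc E (k + 1) ≤ E k - (E k / K) ^ s * (E k / K) := by rw [← h12]; exact h11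
      _ = E k / K * (1 - (E k / K) ^ s / K) * K := by
          field_simp
  have hfin := scalar (x := fun k => E k / K) hK hs0 m (fun k hk => by
    have := hpos k hk
    positivity) hrec m le_rfl
  have hx0 : 0 < E m / K := by positivity
  have h13 : (E m / K) ^ s ≤ K / s * (m : ℝ)⁻¹ := by
    have h14 : (E m / K) ^ s = (s / K * m * (E m / K) ^ s) * (K / s * (m : ℝ)⁻¹) := by
      field_simp
    rw [h14]
    calc _ ≤ 1 * (K / s * (m : ℝ)⁻¹) := by gcongr
      _ = _ := one_mul _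
  have h15 : E m / K ≤ (K / s * (m : ℝ)⁻¹) ^ (1 / s) := by
    calc E m / K = ((E m / K) ^ s) ^ (1 / s) := by
          rw [← Real.rpow_mul hx0.le, mul_one_div_cancel hs0.ne', Real.rpow_one]
      _ ≤ (K / s * (m : ℝ)⁻¹) ^ (1 / s) := by gcongr
  have h16 : 1 / s = (1 - μ) / (1 + μ) := by
    rw [hs, one_div_div]
  rw [Real.mul_rpow (by positivity) (by positivity), h16] at h15
  rw [div_le_iff₀ hK] at h15
  rw [Real.rpow_neg hm0.le, ← Real.inv_rpow hm0.le, mul_comm K]
  exact h15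

end Pool.Agent.H331G.RB
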