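import Mathlib

/-!
# The recursions behind the rates of the pure greedy algorithm
-/

set_option autoImplicit false

namespace Pool.Agent.H331G

theorem key_ineq (x L : ℝ) (hx : 2 ≤ x) (hL : 1 ≤ L) :
    23 * L ^ 2 / x * (1 - 1 / (x + 1 + x / L)) + 5 * L / x ^ 2 ≤
      23 * (L ^ 2 + 2 * L / (x + 1)) / (x + 1) := by
  have hx0 : 0 < x := by linarith
  have hL0 : 0 < L := by linarith
  have hd : 0 < L * (x + 1) + x := by positivity
  have h1 : 23 * L ^ 2 / x * (1 - 1 / (x + 1 + x / L)) = 23 * (L ^ 2 * (L + 1) / (L * (x + 1) + x)) := by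
    have : x + 1 + x / L = (L * (x + 1) + x) / L := by
      field_simp
    rw [this]
    field_simp
    ring
  have h2 : (L ^ 2 + 2 * L / (x + 1)) / (x + 1) - L ^ 2 * (L + 1) / (L * (x + 1) + x) =
      (L ^ 2 * (x + 1) + 2 * L * x) / ((x + 1) ^ 2 * (L * (x + 1) + x)) := by
    field_simp
    ring
  have h3 : L / (2 * (x + 1) ^ 2) ≤
      (L ^ 2 * (x + 1) + 2 * L * x) / ((x + 1) ^ 2 * (L * (x + 1) + x)) := by
    rw [div_le_div_iff₀ (by positivity) (by positivity)]
    have h4 : L * (L * (x + 1) + x) ≤ 2 * (L ^ 2 * (x + 1) + 2 * L * x) := by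
      nlinarith [mul_pos hL0 hx0, mul_pos (mul_pos hL0 hL0) hx0, sq_nonneg L]
    calc L * ((x + 1) ^ 2 * (L * (x + 1) + x)) = (x + 1) ^ 2 * (L * (L * (x + 1) + x)) := by ring
      _ ≤ (x + 1) ^ 2 * (2 * (L ^ 2 * (x + 1) + 2 * L * x)) := by gcongr
      _ = _ := by ring
  have h5 : 5 * L / x ^ 2 ≤ 23 * (L / (2 * (x + 1) ^ 2)) := by
    have h6 : 23 * (L / (2 * (x + 1) ^ 2)) = (23 * L) / (2 * (x + 1) ^ 2) := by ring
    rw [h6, div_le_div_iff₀ (by positivity) (by positivity)]
    have h7 : 10 * (x + 1) ^ 2 ≤ 23 * x ^ 2 := by nlinarith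
    nlinarith
  rw [h1]
  have h8 : 23 * (L ^ 2 + 2 * L / (x + 1)) / (x + 1) = 23 * ((L ^ 2 + 2 * L / (x + 1)) / (x + 1)) := by
    ring
  rw [h8]
  linarith

theorem rec_one {a : ℕ → ℝ} (ha1 : ∀ m, a m ≤ 1)
    (hrec : ∀ m n : ℕ, 1 ≤ n → a (m + 1) ≤ a m - (a m - 5 / n) / (n + m)) :
    ∀ m : ℕ, 1 ≤ m → a m ≤ 23 * (1 + Real.log m) ^ 2 / m := by
  intro m hm
  induction m, hm using Nat.le_induction with
  | base =>
    have := ha1 1
    norm_num
    linarith
  | succ m hm ih =>
    have hm1 : (1 : ℝ) ≤ m := by exact_mod_cast hm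
    rcases Nat.lt_or_ge m 2 with h2 | h2
    · have hm' : m = 1 := by omega
      subst hm'
      have h3 := ha1 (1 + 1)
      have h4 : 0 ≤ Real.log ((1 + 1 : ℕ) : ℝ) := Real.log_natCast_nonneg _
      refine h3.trans ?_
      rw [le_div_iff₀ (by norm_num)]
      push_cast at h4 ⊢
      nlinarith
    · have hx : (2 : ℝ) ≤ m := by exact_mod_cast h2
      set L : ℝ := 1 + Real.log m with hLdef
      have hL : 1 ≤ L := by
        have := Real.log_natCast_nonneg m
        linarith
      have hL0 : 0 < L := by linarith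
      have hm0 : (0 : ℝ) < m := by linarith
      set n : ℕ := ⌈(m : ℝ) / L⌉₊ with hn
      have hn1 : (m : ℝ) / L ≤ n := Nat.le_ceil _
      have hn2 : (n : ℝ) < m / L + 1 := Nat.ceil_lt_add_one (by positivity)
      have hnpos : 1 ≤ n := Nat.one_le_iff_ne_zero.2 (by
        intro h0
        rw [h0] at hn1
        have : 0 < (m : ℝ) / L := by positivity
        norm_num at hn1
        linarith)
      have hn0 : (0 : ℝ) < n := by exact_mod_cast hnpos
      have h3 := hrec m n hnpos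
      have h4 : a m - (a m - 5 / n) / (n + m) = a m * (1 - 1 / (n + m)) + 5 / (n * (n + m)) := by
        field_simp
        ring
      rw [h4] at h3
      have h5 : 5 / ((n : ℝ) * (n + m)) ≤ 5 * L / (m : ℝ) ^ 2 := by
        rw [div_le_div_iff₀ (by positivity) (by positivity)]
        have h6 : (m : ℝ) ≤ n * L := by rwa [div_le_iff₀ hL0] at hn1
        have h7 : (m : ℝ) * m ≤ (n * L) * (n + m) := by
          apply mul_le_mul h6 (by linarith) hm0.le (by positivity)
        nlinarith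
      have h6 : (0 : ℝ) ≤ 1 - 1 / (n + m) := by
        rw [sub_nonneg, div_le_one (by positivity)]
        linarith
      have h7 : 1 - 1 / ((n : ℝ) + m) ≤ 1 - 1 / (m + 1 + m / L) := by
        have : 1 / ((m : ℝ) + 1 + m / L) ≤ 1 / (n + m) := by
          apply one_div_le_one_div_of_le (by positivity)
          linarith
        linarith
      have h8 : a m * (1 - 1 / (n + m)) ≤ 23 * L ^ 2 / m * (1 - 1 / (m + 1 + m / L)) := by
        calc a m * (1 - 1 / ((n : ℝ) + m)) ≤ 23 * L ^ 2 / m * (1 - 1 / (n + m)) := by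
              gcongr
          _ ≤ _ := by gcongr
      have h9 := key_ineq m L hx hL
      have h10 : 1 / ((m : ℝ) + 1) ≤ Real.log (m + 1) - Real.log m := by
        rw [← Real.log_div (by positivity) hm0.ne']
        have h11 := Real.one_sub_inv_le_log_of_pos (x := ((m : ℝ) + 1) / m) (by positivity)
        have h12 : 1 - (((m : ℝ) + 1) / m)⁻¹ = 1 / ((m : ℝ) + 1) := by
          field_simp
          ring
        rwa [h12] at h11
      have h13 : L ^ 2 + 2 * L / ((m : ℝ) + 1) ≤ (1 + Real.log ((m : ℝ) + 1)) ^ 2 := by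
        have h14 : L + 1 / ((m : ℝ) + 1) ≤ 1 + Real.log ((m : ℝ) + 1) := by
          rw [hLdef]
          linarith
        have h15 : 0 ≤ 1 / ((m : ℝ) + 1) := by positivity
        have h16 : 2 * L / ((m : ℝ) + 1) = 2 * L * (1 / ((m : ℝ) + 1)) := by ring
        rw [h16]
        nlinarith
      push_cast
      calc a (m + 1) ≤ 23 * (L ^ 2 + 2 * L / ((m : ℝ) + 1)) / (m + 1) := by linarith
        _ ≤ 23 * (1 + Real.log ((m : ℝ) + 1)) ^ 2 / (m + 1) := by gcongr

/-- A discrete Gronwall inequality. -/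
theorem gronwall {h u v : ℕ → ℝ} (hu : ∀ k, 0 ≤ u k) (hv : ∀ k, 0 ≤ v k) (h1 : 0 ≤ h 1)
    (hrec : ∀ m, 1 ≤ m → h (m + 1) ≤ h m * Real.exp (u m) + v m) :
    ∀ m, 1 ≤ m → h m ≤ Real.exp (∑ k ∈ Finset.range m, u k) *
      (h 1 + ∑ k ∈ Finset.range m, v k) := by
  intro m hm
  induction m, hm using Nat.le_induction with
  | base =>
    rw [Finset.sum_range_one, Finset.sum_range_one]
    have h2 := Real.one_le_exp (hu 0)
    nlinarith [hv 0, mul_nonneg (sub_nonneg.2 h2) (add_nonneg h1 (hv 0))]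
  | succ m hm ih =>
    rw [Finset.sum_range_succ, Finset.sum_range_succ, Real.exp_add]
    have hU : 1 ≤ Real.exp (∑ k ∈ Finset.range m, u k) :=
      Real.one_le_exp (Finset.sum_nonneg fun k _ => hu k)
    have hE : 1 ≤ Real.exp (u m) := Real.one_le_exp (hu m)
    have hV : 0 ≤ ∑ k ∈ Finset.range m, v k := Finset.sum_nonneg fun k _ => hv k
    have h3 := hrec m hm
    set A := Real.exp (∑ k ∈ Finset.range m, u k)
    set B := Real.exp (u m)
    set V := ∑ k ∈ Finset.range m, v k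
    have h4 : h m * B ≤ A * (h 1 + V) * B := mul_le_mul_of_nonneg_right ih (by positivity)
    have h5 : v m ≤ A * B * v m := by
      have : 1 ≤ A * B := by nlinarith
      nlinarith [hv m]
    calc h (m + 1) ≤ A * (h 1 + V) * B + A * B * v m := by linarith
      _ = A * B * (h 1 + (V + v m)) := by ring

theorem rec_lt {s : ℝ} (hs0 : 0 < s) (hs1 : s < 1) : ∃ C : ℝ, 0 < C ∧ ∀ a : ℕ → ℝ,
    (∀ m, 0 ≤ a m) → (∀ m, a m ≤ 1) →
    (∀ m n : ℕ, 1 ≤ n → a (m + 1) ≤ a m - s * (a m - 5 / n) / (n + m)) →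
    ∀ m : ℕ, 1 ≤ m → a m ≤ C * (m : ℝ) ^ (-s) := by
  set β : ℝ := (1 + s) / 2 with hβ
  have hβ0 : 0 < β := by rw [hβ]; linarith
  have hβ1 : β < 1 := by rw [hβ]; linarith
  have hsβ : s < β := by rw [hβ]; linarith
  set u : ℕ → ℝ := fun m => 2 * (m : ℝ) ^ (β - 2) with hu
  set v : ℕ → ℝ := fun m => 10 * (m : ℝ) ^ (s - 1 - β) with hv
  have hu0 : ∀ k, 0 ≤ u k := fun k => by rw [hu]; positivity
  have hv0 : ∀ k, 0 ≤ v k := fun k => by rw [hv]; positivity
  have hus : Summable u := by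
    apply Summable.mul_left
    exact Real.summable_nat_rpow.2 (by linarith)
  have hvs : Summable v := by
    apply Summable.mul_left
    exact Real.summable_nat_rpow.2 (by linarith)
  refine ⟨Real.exp (∑' k, u k) * (1 + ∑' k, v k), ?_, ?_⟩
  · have : 0 ≤ ∑' k, v k := tsum_nonneg hv0
    positivity
  intro a ha0 ha1 hrec
  have hmain : ∀ m : ℕ, 1 ≤ m → a (m + 1) * ((m + 1 : ℕ) : ℝ) ^ s ≤
      a m * (m : ℝ) ^ s * Real.exp (u m) + v m := by
    intro m hm
    have hm1 : (1 : ℝ) ≤ m := by exact_mod_cast hm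
    have hm0 : (0 : ℝ) < m := by linarith
    set n : ℕ := ⌈(m : ℝ) ^ β⌉₊ with hn
    have hpow1 : (1 : ℝ) ≤ (m : ℝ) ^ β := Real.one_le_rpow hm1 hβ0.le
    have hn1 : (m : ℝ) ^ β ≤ n := Nat.le_ceil _
    have hn2 : (n : ℝ) < (m : ℝ) ^ β + 1 := Nat.ceil_lt_add_one (by positivity)
    have hn3 : (n : ℝ) ≤ 2 * (m : ℝ) ^ β := by linarith
    have hnpos : 1 ≤ n := by
      have : (1 : ℝ) ≤ n := hpow1.trans hn1
      exact_mod_cast this
    have hn0 : (0 : ℝ) < n := by exact_mod_cast hnpos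
    have hn1' : (1 : ℝ) ≤ n := by exact_mod_cast hnpos
    have h3 := hrec m n hnpos
    have h4 : a m - s * (a m - 5 / n) / (n + m) =
        a m * (1 - s / (n + m)) + 5 * s / (n * (n + m)) := by
      field_simp
      ring
    rw [h4] at h3
    have hq0 : 0 ≤ 1 - s / ((n : ℝ) + m) := by
      rw [sub_nonneg, div_le_one (by positivity)]
      linarith
    -- the growth factor
    have hfac : (1 - s / ((n : ℝ) + m)) * ((m + 1 : ℕ) : ℝ) ^ s ≤
        (m : ℝ) ^ s * Real.exp (u m) := by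
      have e1 : ((m + 1 : ℕ) : ℝ) = m * (1 + 1 / m) := by
        push_cast
        field_simp
      have e2 : ((m + 1 : ℕ) : ℝ) ^ s = (m : ℝ) ^ s * (1 + 1 / (m : ℝ)) ^ s := by
        rw [e1, Real.mul_rpow hm0.le (by positivity)]
      have e3 : (1 + 1 / (m : ℝ)) ^ s ≤ Real.exp (s / m) := by
        have e4 : (1 : ℝ) + 1 / m ≤ Real.exp (1 / m) := by
          have := Real.add_one_le_exp (1 / (m : ℝ))
          linarith
        calc (1 + 1 / (m : ℝ)) ^ s ≤ (Real.exp (1 / m)) ^ s :=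
              Real.rpow_le_rpow (by positivity) e4 hs0.le
          _ = Real.exp (s / m) := by
              rw [← Real.exp_mul]
              congr 1
              ring
      have e5 : 1 - s / ((n : ℝ) + m) ≤ Real.exp (-(s / (n + m))) := by
        have := Real.add_one_le_exp (-(s / ((n : ℝ) + m)))
        linarith
      have e6 : s / (m : ℝ) - s / (n + m) ≤ u m := by
        have e7 : s / (m : ℝ) - s / (n + m) = s * (n / (m * (n + m))) := by
          field_simp
          ring
        have e8 : (n : ℝ) / (m * (n + m)) ≤ u m := by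
          have e9 : (n : ℝ) / (m * (n + m)) ≤ (2 * (m : ℝ) ^ β) / (m * m) := by
            apply div_le_div₀ (by positivity) hn3 (by positivity)
            gcongr
            linarith
          refine e9.trans (le_of_eq ?_)
          rw [hu]
          simp only
          rw [Real.rpow_sub hm0, mul_div_assoc]
          congr 2
          rw [Real.rpow_two]
          ring
        rw [e7]
        have e10 : 0 ≤ (n : ℝ) / (m * (n + m)) := by positivity
        nlinarith
      rw [e2]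
      calc (1 - s / ((n : ℝ) + m)) * ((m : ℝ) ^ s * (1 + 1 / (m : ℝ)) ^ s)
          = (m : ℝ) ^ s * ((1 + 1 / (m : ℝ)) ^ s * (1 - s / ((n : ℝ) + m))) := by ring
        _ ≤ (m : ℝ) ^ s * (Real.exp (s / m) * Real.exp (-(s / (n + m)))) := by
            gcongr
        _ = (m : ℝ) ^ s * Real.exp (s / m - s / (n + m)) := by
            rw [← Real.exp_add]
            congr 2
        _ ≤ (m : ℝ) ^ s * Real.exp (u m) := by
            gcongr
    have hsrc : 5 * s / ((n : ℝ) * (n + m)) * ((m + 1 : ℕ) : ℝ) ^ s ≤ v m := by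
      have e1 : ((m + 1 : ℕ) : ℝ) ^ s ≤ 2 * (m : ℝ) ^ s := by
        calc ((m + 1 : ℕ) : ℝ) ^ s ≤ (2 * (m : ℝ)) ^ s := by
              apply Real.rpow_le_rpow (by positivity) _ hs0.le
              push_cast
              linarith
          _ = 2 ^ s * (m : ℝ) ^ s := Real.mul_rpow (by norm_num) hm0.le
          _ ≤ 2 * (m : ℝ) ^ s := by
              gcongr
              calc (2 : ℝ) ^ s ≤ 2 ^ (1 : ℝ) := Real.rpow_le_rpow_of_exponent_le (by norm_num) hs1.le
                _ = 2 := Real.rpow_one 2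
      have e2 : 5 * s / ((n : ℝ) * (n + m)) ≤ 5 / ((m : ℝ) ^ β * m) := by
        apply div_le_div₀ (by norm_num) (by linarith) (by positivity)
        gcongr
        linarith
      have e3 : v m = 5 / ((m : ℝ) ^ β * m) * (2 * (m : ℝ) ^ s) := by
        rw [hv]
        simp only
        have : (m : ℝ) ^ (s - 1 - β) = (m : ℝ) ^ s / ((m : ℝ) ^ β * m) := by
          rw [Real.rpow_sub hm0, Real.rpow_sub hm0, Real.rpow_one]
          field_simp
        rw [this]
        field_simp
        ring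
      rw [e3]
      gcongr
    have hP : (0 : ℝ) ≤ ((m + 1 : ℕ) : ℝ) ^ s := by positivity
    calc a (m + 1) * ((m + 1 : ℕ) : ℝ) ^ s
        ≤ (a m * (1 - s / (n + m)) + 5 * s / (n * (n + m))) * ((m + 1 : ℕ) : ℝ) ^ s := by
          gcongr
      _ = a m * ((1 - s / ((n : ℝ) + m)) * ((m + 1 : ℕ) : ℝ) ^ s) +
          5 * s / ((n : ℝ) * (n + m)) * ((m + 1 : ℕ) : ℝ) ^ s := by ring
      _ ≤ a m * ((m : ℝ) ^ s * Real.exp (u m)) + v m := by
          gcongr
          exact ha0 m
      _ = a m * (m : ℝ) ^ s * Real.exp (u m) + v m := by ring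
  intro m hm
  have hm0 : (0 : ℝ) < m := by exact_mod_cast hm
  have hg := gronwall (h := fun m => a m * (m : ℝ) ^ s) hu0 hv0
    (by have := ha0 1; positivity) hmain m hm
  have h5 : a 1 * ((1 : ℕ) : ℝ) ^ s ≤ 1 := by
    have := ha1 1
    simpa using this
  have h6 : ∑ k ∈ Finset.range m, u k ≤ ∑' k, u k := hus.sum_le_tsum _ (fun k _ => hu0 k)
  have h7 : ∑ k ∈ Finset.range m, v k ≤ ∑' k, v k := hvs.sum_le_tsum _ (fun k _ => hv0 k)
  have h8 : a m * (m : ℝ) ^ s ≤ Real.exp (∑' k, u k) * (1 + ∑' k, v k) := by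
    refine hg.trans ?_
    have h9 : 0 ≤ a 1 * ((1 : ℕ) : ℝ) ^ s + ∑ k ∈ Finset.range m, v k := by
      have h10 := ha0 1
      have h11 : 0 ≤ ∑ k ∈ Finset.range m, v k := Finset.sum_nonneg fun k _ => hv0 k
      positivity
    gcongr
  rw [Real.rpow_neg hm0.le, ← div_eq_mul_inv, le_div_iff₀ (by positivity)]
  exact h8

end Pool.Agent.H331G
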