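import Mathlib

/-!
# Pure greedy algorithm for quasi-orthogonal dictionaries: definitions and the one-step inequality
-/

set_option autoImplicit false

namespace Pool.Agent.H331G

variable {H : Type} [NormedAddCommGroup H] [InnerProductSpace ℝ H]

/-- `D` is a dictionary: a set of unit vectors whose linear span is dense. -/
def IsDictionary (D : Set H) : Prop :=
  (∀ g ∈ D, ‖g‖ = 1) ∧ Dense (Submodule.span ℝ D : Set H)

/-- The norm-closed convex hull of the elements `g` and `-g`, `g ∈ D`. -/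
def A1 (D : Set H) : Set H := closure (convexHull ℝ (D ∪ -D))

/-- `D` is `lam`-quasi-orthogonal. -/
def IsQuasiOrthogonal (D : Set H) (lam : ℝ) : Prop :=
  ∀ n : ℕ, 1 ≤ n → ∀ g : Fin n → H, (∀ i, g i ∈ D) →
    ∃ (M : ℕ) (φ : Fin M → H), (M : ℝ) ≤ lam * n ∧ (∀ j, φ j ∈ D) ∧
      (∀ i, g i ∈ Submodule.span ℝ (Set.range φ)) ∧
      ∀ f ∈ Submodule.span ℝ (Set.range φ),
        ∃ j, (lam * n) ^ (-(1 / 2 : ℝ)) * ‖f‖ ≤ |inner ℝ f (φ j)|

/-- `f 0, …, f m` are the residuals of a realization of the first `m` steps of the pure greedy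
algorithm: at each step `k < m` a maximiser `φ k` of `|⟨f k, g⟩|` over `g ∈ D` is chosen and
`f (k + 1) = f k - ⟨f k, φ k⟩ φ k`. -/
def IsGreedy (D : Set H) (f : ℕ → H) (m : ℕ) : Prop :=
  ∃ φ : ℕ → H, ∀ k < m, φ k ∈ D ∧ (∀ g ∈ D, |inner ℝ (f k) g| ≤ |inner ℝ (f k) (φ k)|) ∧
    f (k + 1) = f k - (inner ℝ (f k) (φ k)) • φ k

theorem exists_good {D : Set H} {f : H} (hf : f ∈ A1 D) (e : H) {η : ℝ} (hη : 0 < η) :
    ∃ g ∈ D ∪ -D, inner ℝ e f - η ≤ inner ℝ e g := by
  by_contra hcon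
  push Not at hcon
  have hconv : Convex ℝ {x : H | inner ℝ e x ≤ inner ℝ e f - η} := by
    intro x hx y hy a b ha hb hab
    simp only [Set.mem_setOf_eq] at hx hy ⊢
    rw [inner_add_right, inner_smul_right, inner_smul_right]
    calc a * inner ℝ e x + b * inner ℝ e y
        ≤ a * (inner ℝ e f - η) + b * (inner ℝ e f - η) := by gcongr
      _ = inner ℝ e f - η := by rw [← add_mul, hab, one_mul]
  have hclosed : IsClosed {x : H | inner ℝ e x ≤ inner ℝ e f - η} :=
    isClosed_le (by fun_prop) continuous_const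
  have hsub : A1 D ⊆ {x : H | inner ℝ e x ≤ inner ℝ e f - η} := by
    apply closure_minimal _ hclosed
    apply convexHull_min _ hconv
    intro g hg
    exact (hcon g hg).le
  have h := hsub hf
  simp only [Set.mem_setOf_eq] at h
  linarith

theorem norm_le_one {D : Set H} (hD : ∀ g ∈ D, ‖g‖ = 1) {f : H} (hf : f ∈ A1 D) : ‖f‖ ≤ 1 := by
  have hsub : A1 D ⊆ Metric.closedBall (0 : H) 1 := by
    apply closure_minimal _ Metric.isClosed_closedBall
    apply convexHull_min _ (convex_closedBall _ _)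
    rintro g (hg | hg)
    · simp [hD g hg]
    · have := hD _ hg
      rw [norm_neg] at this
      simp [this]
  simpa using hsub hf

/-- Approximation by `n` elements of the dictionary. -/
theorem exists_approx {D : Set H} (hD : ∀ g ∈ D, ‖g‖ = 1) {f : H} (hf : f ∈ A1 D) (n : ℕ) :
    ∃ g : Fin n → H, (∀ i, g i ∈ D) ∧ ∃ S ∈ Submodule.span ℝ (Set.range g),
      ‖(n : ℝ) • f - S‖ ^ 2 ≤ 5 * n := by
  induction n with
  | zero =>
    refine ⟨fun i => i.elim0, fun i => i.elim0, 0, Submodule.zero_mem _, ?_⟩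
    simp
  | succ n ih =>
    obtain ⟨g, hg, S, hS, hn⟩ := ih
    set e : H := (n : ℝ) • f - S with he
    obtain ⟨u, hu, hue⟩ := exists_good hf e (η := 1 / 2) (by norm_num)
    have hu1 : ‖u‖ = 1 := by
      rcases hu with hu | hu
      · exact hD u hu
      · have := hD _ hu
        rwa [norm_neg] at this
    have hf1 := norm_le_one hD hf
    -- the element of `D` is `u` or `-u`
    obtain ⟨u', hu', c, huc⟩ : ∃ u' ∈ D, ∃ c : ℝ, u = c • u' := by
      rcases hu with hu | hu
      · exact ⟨u, hu, 1, by simp⟩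
      · exact ⟨-u, hu, -1, by simp⟩
    refine ⟨Fin.snoc (α := fun _ => H) g u', ?_, S + u, ?_, ?_⟩
    · intro i
      refine Fin.lastCases ?_ (fun i => ?_) i
      · simpa using hu'
      · simpa using hg i
    · have h1 : Set.range g ⊆ Set.range (Fin.snoc (α := fun _ => H) g u') := by
        rintro _ ⟨i, rfl⟩
        exact ⟨i.castSucc, by simp⟩
      refine Submodule.add_mem _ (Submodule.span_mono h1 hS) ?_
      rw [huc]
      exact Submodule.smul_mem _ _ (Submodule.subset_span ⟨Fin.last n, by simp⟩)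
    · have h2 : ((n + 1 : ℕ) : ℝ) • f - (S + u) = e + (f - u) := by
        rw [he]
        push_cast
        rw [add_smul, one_smul]
        abel
      rw [h2, norm_add_sq_real]
      have h3 : inner ℝ e (f - u) ≤ 1 / 2 := by
        rw [inner_sub_right]
        linarith
      have h4 : ‖f - u‖ ≤ 2 := (norm_sub_le _ _).trans (by rw [hu1]; linarith)
      have h5 : ‖f - u‖ ^ 2 ≤ 4 := by nlinarith [norm_nonneg (f - u)]
      push_cast
      linarith

/-- The one-step inequality. -/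
theorem step {D : Set H} {lam : ℝ} (hlam : 0 < lam) (hD : ∀ g ∈ D, ‖g‖ = 1)
    (hQ : IsQuasiOrthogonal D lam) {f : ℕ → H} (hf : f 0 ∈ A1 D) {K : ℕ} (hG : IsGreedy D f K)
    (m n : ℕ) (hmK : m < K) (hn : 1 ≤ n) :
    ‖f (m + 1)‖ ^ 2 ≤ ‖f m‖ ^ 2 - (‖f m‖ ^ 2 - 5 / n) / (lam * (n + m)) := by
  obtain ⟨φ, hφ⟩ := hG
  obtain ⟨g, hg, S, hS, hSn⟩ := exists_approx hD hf n
  have hn0 : (0 : ℝ) < n := by exact_mod_cast hn
  -- the chosen elements
  have hmem : ∀ k, k < K → ∀ X : Submodule ℝ H, (∀ i, i < k → φ i ∈ X) → f 0 - f k ∈ X := by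
    intro k
    induction k with
    | zero =>
      intro _ X _
      simp
    | succ k ih =>
      intro hk X hX
      rw [(hφ k (by omega)).2.2]
      have h1 := ih (by omega) X (fun i hi => hX i (by omega))
      have h2 : f 0 - (f k - (inner ℝ (f k) (φ k)) • φ k) =
          (f 0 - f k) + (inner ℝ (f k) (φ k)) • φ k := by abel
      rw [h2]
      exact X.add_mem h1 (X.smul_mem _ (hX k (by omega)))
  obtain ⟨M, ψ, hM, hψD, hψg, hψ⟩ := hQ (n + m) (by omega)
    (Fin.append g (fun i : Fin m => φ i)) (by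
      intro i
      refine Fin.addCases (fun i => ?_) (fun i => ?_) i
      · simpa using hg i
      · simpa using (hφ i (by omega)).1)
  set X := Submodule.span ℝ (Set.range ψ) with hX
  have : FiniteDimensional ℝ X := FiniteDimensional.span_of_finite ℝ (Set.finite_range ψ)
  have hgX : ∀ i, g i ∈ X := fun i => by simpa using hψg (Fin.castAdd m i)
  have hφX : ∀ i, i < m → φ i ∈ X := fun i hi => by
    have h1 := hψg (Fin.natAdd n ⟨i, hi⟩)
    rwa [Fin.append_right] at h1
  have hSX : S ∈ X := by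
    have : Submodule.span ℝ (Set.range g) ≤ X := by
      rw [Submodule.span_le]
      rintro _ ⟨i, rfl⟩
      exact hgX i
    exact this hS
  have hfX : f 0 - f m ∈ X := hmem m hmK X hφX
  set v : H := f 0 - (n : ℝ)⁻¹ • S with hv
  have hvn : ‖v‖ ^ 2 ≤ 5 / n := by
    have h1 : v = (n : ℝ)⁻¹ • ((n : ℝ) • f 0 - S) := by
      rw [hv, smul_sub, smul_smul, inv_mul_cancel₀ hn0.ne', one_smul]
    rw [h1, norm_smul, mul_pow, norm_inv, Real.norm_natCast, inv_pow]
    rw [inv_mul_le_iff₀ (by positivity)]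
    calc _ ≤ 5 * (n : ℝ) := hSn
      _ = (n : ℝ) ^ 2 * (5 / n) := by field_simp
  -- orthogonal decomposition
  have hdec := Submodule.norm_sq_eq_add_norm_sq_starProjection (f m) X
  have hperp : Xᗮ.starProjection (f m) = Xᗮ.starProjection v := by
    have h1 : f m - v ∈ X := by
      have h2 : f m - v = (n : ℝ)⁻¹ • S - (f 0 - f m) := by rw [hv]; abel
      rw [h2]
      exact X.sub_mem (X.smul_mem _ hSX) hfX
    have h3 : Xᗮ.starProjection (f m - v) = 0 := by
      rw [Submodule.starProjection_orthogonal_val, (Submodule.starProjection_eq_self_iff).2 h1,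
        sub_self]
    rw [map_sub, sub_eq_zero] at h3
    exact h3
  have hperp2 : ‖Xᗮ.starProjection v‖ ^ 2 ≤ ‖v‖ ^ 2 := by
    have := Submodule.norm_sq_eq_add_norm_sq_starProjection v X
    nlinarith [norm_nonneg (X.starProjection v), sq_nonneg ‖X.starProjection v‖]
  obtain ⟨j, hj⟩ := hψ (X.starProjection (f m)) (Submodule.starProjection_apply_mem _ _)
  have hinner : inner ℝ (X.starProjection (f m)) (ψ j) = inner ℝ (f m) (ψ j) := by
    have h1 : inner ℝ (f m - X.starProjection (f m)) (ψ j) = 0 :=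
      Submodule.starProjection_inner_eq_zero _ _ (Submodule.subset_span ⟨j, rfl⟩)
    rw [inner_sub_left, sub_eq_zero] at h1
    exact h1.symm
  rw [hinner] at hj
  have hj2 := hj.trans ((hφ m hmK).2.1 _ (hψD j))
  set N : ℝ := lam * ((n + m : ℕ) : ℝ) with hN
  have hN0 : 0 < N := by
    rw [hN]
    push_cast
    positivity
  have hsq : ‖X.starProjection (f m)‖ ^ 2 / N ≤ (inner ℝ (f m) (φ m)) ^ 2 := by
    rw [← sq_abs (inner ℝ (f m) (φ m))]
    have h1 : (N ^ (-(1 / 2 : ℝ)) * ‖X.starProjection (f m)‖) ^ 2 =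
        ‖X.starProjection (f m)‖ ^ 2 / N := by
      rw [mul_pow, ← Real.rpow_natCast (N ^ (-(1 / 2 : ℝ))) 2, ← Real.rpow_mul hN0.le]
      norm_num
      rw [Real.rpow_neg_one]
      field_simp
    rw [← h1]
    apply pow_le_pow_left₀ _ hj2
    positivity
  have hnext : ‖f (m + 1)‖ ^ 2 = ‖f m‖ ^ 2 - (inner ℝ (f m) (φ m)) ^ 2 := by
    rw [(hφ m hmK).2.2, norm_sub_sq_real, inner_smul_right, norm_smul, hD _ (hφ m hmK).1, mul_one,
      Real.norm_eq_abs, sq_abs]
    ring
  rw [hnext]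
  have hfin : (‖f m‖ ^ 2 - 5 / n) / (lam * (n + m)) ≤ ‖X.starProjection (f m)‖ ^ 2 / N := by
    rw [hN]
    push_cast
    gcongr
    rw [hdec, hperp]
    linarith
  linarith

theorem norm_le_one_all {D : Set H} (hD : ∀ g ∈ D, ‖g‖ = 1) {f : ℕ → H} (hf : f 0 ∈ A1 D)
    {K : ℕ} (hG : IsGreedy D f K) (k : ℕ) (hk : k ≤ K) : ‖f k‖ ^ 2 ≤ 1 := by
  obtain ⟨φ, hφ⟩ := hG
  induction k with
  | zero =>
    have := norm_le_one hD hf
    nlinarith [norm_nonneg (f 0)]
  | succ k ih =>
    have hnext : ‖f (k + 1)‖ ^ 2 = ‖f k‖ ^ 2 - (inner ℝ (f k) (φ k)) ^ 2 := by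
      rw [(hφ k (by omega)).2.2, norm_sub_sq_real, inner_smul_right, norm_smul,
        hD _ (hφ k (by omega)).1, mul_one, Real.norm_eq_abs, sq_abs]
      ring
    have := ih (by omega)
    nlinarith [sq_nonneg (inner ℝ (f k) (φ k))]

/-- The squared norms of the residuals, continued by zero. -/
theorem seq_rec {D : Set H} {lam : ℝ} (hlam : 1 ≤ lam) (hD : ∀ g ∈ D, ‖g‖ = 1)
    (hQ : IsQuasiOrthogonal D lam) {f : ℕ → H} (hf : f 0 ∈ A1 D) {K : ℕ} (hG : IsGreedy D f K)
    (a : ℕ → ℝ) (ha : ∀ k, a k = if k ≤ K then ‖f k‖ ^ 2 else 0) :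
    (∀ k, 0 ≤ a k) ∧ (∀ k, a k ≤ 1) ∧ ∀ m n : ℕ, 1 ≤ n →
      a (m + 1) ≤ a m - (a m - 5 / n) / (lam * (n + m)) := by
  have h0 : ∀ k, 0 ≤ a k := by
    intro k
    rw [ha]
    split_ifs
    · positivity
    · exact le_rfl
  have h1 : ∀ k, a k ≤ 1 := by
    intro k
    rw [ha]
    split_ifs with h
    · exact norm_le_one_all hD hf hG k h
    · exact zero_le_one
  refine ⟨h0, h1, fun m n hn => ?_⟩
  rcases Nat.lt_or_ge m K with hm | hm
  · have h2 := step (by linarith : 0 < lam) hD hQ hf hG m n hm hn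
    rw [ha, ha, if_pos (by omega), if_pos (by omega)]
    exact h2
  · rw [ha (m + 1), if_neg (by omega)]
    have hn0 : (1 : ℝ) ≤ n := by exact_mod_cast hn
    have hm0 : (0 : ℝ) ≤ m := Nat.cast_nonneg m
    have h3 : a m - (a m - 5 / n) / (lam * (n + m)) =
        a m * (1 - 1 / (lam * (n + m))) + 5 / (n * (lam * (n + m))) := by
      have : (0 : ℝ) < lam * (n + m) := by positivity
      field_simp
      ring
    rw [h3]
    have h4 : 0 ≤ 1 - 1 / (lam * ((n : ℝ) + m)) := by
      rw [sub_nonneg, div_le_one (by positivity)]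
      nlinarith
    have h5 := h0 m
    positivity

end Pool.Agent.H331G
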